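import Pool.Agent.Y247.CV.Maj

/-!
# Even convex functions, integrals over symmetric intervals and the case of equality
-/

set_option autoImplicit false

open Polynomial MeasureTheory

namespace Pool.Agent.Y247.CV

section convex

variable {Φ : ℝ → ℝ}

theorem even_abs (he : ∀ u, Φ (-u) = Φ u) (u : ℝ) : Φ |u| = Φ u := by
  rcases abs_cases u with ⟨h, _⟩ | ⟨h, _⟩
  · rw [h]
  · rw [h, he]

theorem mono (he : ∀ u, Φ (-u) = Φ u) (hc : ConvexOn ℝ Set.univ Φ) {a b : ℝ} (ha : 0 ≤ a)
    (hab : a ≤ b) : Φ a ≤ Φ b := by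
  rcases hab.eq_or_lt with rfl | hlt
  · exact le_rfl
  · have hb : 0 < b := ha.trans_lt hlt
    have h1 : 0 ≤ (b - a) / (2 * b) := div_nonneg (by linarith) (by linarith)
    have h2 : 0 ≤ (b + a) / (2 * b) := div_nonneg (by linarith) (by linarith)
    have h3 : (b - a) / (2 * b) + (b + a) / (2 * b) = 1 := by field_simp; ring
    have h := hc.2 (Set.mem_univ (-b)) (Set.mem_univ b) h1 h2 h3
    have e1 : ((b - a) / (2 * b)) • (-b) + ((b + a) / (2 * b)) • b = a := by
      simp only [smul_eq_mul]; field_simp; ring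
    rw [e1, he, ← add_smul, h3, one_smul] at h
    exact h

theorem strict_mono (he : ∀ u, Φ (-u) = Φ u) (hc : StrictConvexOn ℝ Set.univ Φ) {a b : ℝ}
    (ha : 0 ≤ a) (hab : a < b) : Φ a < Φ b := by
  have hb : 0 < b := ha.trans_lt hab
  have h1 : 0 < (b - a) / (2 * b) := div_pos (by linarith) (by linarith)
  have h2 : 0 < (b + a) / (2 * b) := div_pos (by linarith) (by linarith)
  have h3 : (b - a) / (2 * b) + (b + a) / (2 * b) = 1 := by field_simp; ring
  have h := hc.2 (Set.mem_univ (-b)) (Set.mem_univ b) (by linarith) h1 h2 h3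
  have e1 : ((b - a) / (2 * b)) • (-b) + ((b + a) / (2 * b)) • b = a := by
    simp only [smul_eq_mul]; field_simp; ring
  rw [e1, he, ← add_smul, h3, one_smul] at h
  exact h

theorem between (hc : ConvexOn ℝ Set.univ Φ) {V q U : ℝ} (h1 : V ≤ q) (h2 : q ≤ U) :
    Φ q + Φ (U + V - q) ≤ Φ U + Φ V := by
  rcases (h1.trans h2).eq_or_lt with h | h
  · have : q = U := le_antisymm h2 (h ▸ h1)
    subst this
    rw [h]
    simp
  · have hne : U - V ≠ 0 := (sub_pos.2 h).ne'
    have a1 : 0 ≤ (q - V) / (U - V) := div_nonneg (by linarith) (by linarith)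
    have a2 : 0 ≤ (U - q) / (U - V) := div_nonneg (by linarith) (by linarith)
    have a3 : (q - V) / (U - V) + (U - q) / (U - V) = 1 := by field_simp; ring
    have e1 := hc.2 (Set.mem_univ U) (Set.mem_univ V) a1 a2 a3
    have e2 := hc.2 (Set.mem_univ U) (Set.mem_univ V) a2 a1 ((add_comm _ _).trans a3)
    have f1 : ((q - V) / (U - V)) • U + ((U - q) / (U - V)) • V = q := by
      simp only [smul_eq_mul]; field_simp; ring
    have f2 : ((U - q) / (U - V)) • U + ((q - V) / (U - V)) • V = U + V - q := by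
      simp only [smul_eq_mul]; field_simp; ring
    rw [f1] at e1
    rw [f2] at e2
    simp only [smul_eq_mul] at e1 e2
    have hb : (q - V) / (U - V) = 1 - (U - q) / (U - V) := by linarith
    rw [hb] at e1 e2
    linarith

theorem between_strict (hc : StrictConvexOn ℝ Set.univ Φ) {V q U : ℝ} (h1 : V < q) (h2 : q < U) :
    Φ q + Φ (U + V - q) < Φ U + Φ V := by
  have h := h1.trans h2
  have hne : U - V ≠ 0 := (sub_pos.2 h).ne'
  have a1 : 0 < (q - V) / (U - V) := div_pos (by linarith) (by linarith)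
  have a2 : 0 < (U - q) / (U - V) := div_pos (by linarith) (by linarith)
  have a3 : (q - V) / (U - V) + (U - q) / (U - V) = 1 := by field_simp; ring
  have e1 := hc.2 (Set.mem_univ U) (Set.mem_univ V) h.ne' a1 a2 a3
  have e2 := hc.2 (Set.mem_univ U) (Set.mem_univ V) h.ne' a2 a1 ((add_comm _ _).trans a3)
  have f1 : ((q - V) / (U - V)) • U + ((U - q) / (U - V)) • V = q := by
    simp only [smul_eq_mul]; field_simp; ring
  have f2 : ((U - q) / (U - V)) • U + ((q - V) / (U - V)) • V = U + V - q := by
    simp only [smul_eq_mul]; field_simp; ring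
  rw [f1] at e1
  rw [f2] at e2
  simp only [smul_eq_mul] at e1 e2
  have hb : (q - V) / (U - V) = 1 - (U - q) / (U - V) := by linarith
  rw [hb] at e1 e2
  linarith

/-- the majorization inequality for two numbers -/
theorem two_le (he : ∀ u, Φ (-u) = Φ u) (hc : ConvexOn ℝ Set.univ Φ) {p q U V : ℝ} (hp : 0 ≤ p)
    (hq : 0 ≤ q) (hpU : p ≤ U) (hqU : q ≤ U) (hs : p + q ≤ U + V) :
    Φ p + Φ q ≤ Φ U + Φ V := by
  rcases le_total q V with h | h
  · have h1 := mono he hc hp hpU
    have h2 := mono he hc hq h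
    linarith
  · have h1 := between hc h hqU
    have h2 := mono he hc hp (show p ≤ U + V - q by linarith)
    linarith

theorem two_eq (he : ∀ u, Φ (-u) = Φ u) (hc : StrictConvexOn ℝ Set.univ Φ) {p q U V : ℝ}
    (hp : 0 ≤ p) (hq : 0 ≤ q) (hpU : p ≤ U) (hqU : q ≤ U) (hs : p + q ≤ U + V)
    (heq : Φ p + Φ q = Φ U + Φ V) : p = U ∨ p = V := by
  by_contra hcon
  push Not at hcon
  obtain ⟨n1, n2⟩ := hcon
  have hlt : p < U := lt_of_le_of_ne hpU n1
  have hm := strict_mono he hc hp hlt
  rcases le_or_gt q V with h | h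
  · have h2 := mono he hc.convexOn hq h
    linarith
  · rcases hqU.eq_or_lt with h3 | h3
    · subst h3
      have hpV : p < V := lt_of_le_of_ne (by linarith) n2
      have := strict_mono he hc hp hpV
      linarith
    · have h1 := between_strict hc h h3
      have h2 := mono he hc.convexOn hp (show p ≤ U + V - q by linarith)
      linarith

end convex

/-- symmetric intervals -/
theorem integral_fold (T : ℝ) (f : ℝ → ℝ)
    (hf : IntervalIntegrable f volume (-T) T) (hT : 0 ≤ T) :
    ∫ x in (-T)..T, f x = ∫ x in (0 : ℝ)..T, (f x + f (-x)) := by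
  have h1 : IntervalIntegrable f volume (-T) 0 :=
    hf.mono_set (by
      rw [Set.uIcc_of_le (by linarith), Set.uIcc_of_le (by linarith)]
      exact Set.Icc_subset_Icc le_rfl hT)
  have h2 : IntervalIntegrable f volume 0 T :=
    hf.mono_set (by
      rw [Set.uIcc_of_le (by linarith), Set.uIcc_of_le (by linarith)]
      exact Set.Icc_subset_Icc (by linarith) le_rfl)
  have h3 : IntervalIntegrable (fun x => f (-x)) volume 0 T := by
    have := ((IntervalIntegrable.iff_comp_neg (by simp)).1 h1).symm
    simpa using this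
  rw [← intervalIntegral.integral_add_adjacent_intervals h1 h2,
    intervalIntegral.integral_add h2 h3, intervalIntegral.integral_comp_neg, neg_zero, add_comm]

end Pool.Agent.Y247.CV
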