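import Pool.Agent.Y247.CV.Conv

/-!
# Extremal property of `(x ± 1)^n` for all even convex integrands
-/

set_option autoImplicit false

open Polynomial MeasureTheory

namespace Pool.Agent.Y247.CV

variable {Φ : ℝ → ℝ}

/-- values of the extremal polynomial -/
theorem ext_eval (n k : ℕ) (y : ℝ) :
    (derivative^[k] ((X - C (1 : ℝ)) ^ n)).eval y = (n.descFactorial k : ℝ) * (y - 1) ^ (n - k) := by
  rw [iterate_derivative_X_sub_pow]
  simp

theorem ext_eval' (n k : ℕ) (y : ℝ) :
    (derivative^[k] ((X + C (1 : ℝ)) ^ n)).eval y = (n.descFactorial k : ℝ) * (y + 1) ^ (n - k) := by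
  rw [iterate_derivative_X_add_pow]
  simp

theorem ext_abs (he : ∀ u, Φ (-u) = Φ u) (n k : ℕ) {y : ℝ} (hy : 0 ≤ y) :
    Φ ((derivative^[k] ((X - C (1 : ℝ)) ^ n)).eval y) =
        Φ ((n.descFactorial k : ℝ) * |1 - y| ^ (n - k)) ∧
      Φ ((derivative^[k] ((X - C (1 : ℝ)) ^ n)).eval (-y)) =
        Φ ((n.descFactorial k : ℝ) * (1 + y) ^ (n - k)) := by
  have hc : (0 : ℝ) ≤ (n.descFactorial k : ℝ) := Nat.cast_nonneg _
  constructor
  · rw [← even_abs he, ext_eval, abs_mul, abs_pow, abs_of_nonneg hc, abs_sub_comm]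
  · rw [← even_abs he, ext_eval, abs_mul, abs_pow, abs_of_nonneg hc]
    congr 3
    rw [show -y - 1 = -(1 + y) by ring, abs_neg, abs_of_nonneg (by linarith)]

theorem pair_nonneg (he : ∀ u, Φ (-u) = Φ u) (hc : ConvexOn ℝ Set.univ Φ) {n : ℕ} {P : ℝ[X]}
    (hP : P ∈ DiscPoly n) (k : ℕ) {y : ℝ} (hy : 0 ≤ y) :
    Φ ((derivative^[k] P).eval y) + Φ ((derivative^[k] P).eval (-y)) ≤
      Φ ((derivative^[k] ((X - C (1 : ℝ)) ^ n)).eval y) +
        Φ ((derivative^[k] ((X - C (1 : ℝ)) ^ n)).eval (-y)) := by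
  rcases le_or_gt k n with hk | hk
  · obtain ⟨R, hR, h⟩ := iter_disc hP k hk
    obtain ⟨b1, b2, b3⟩ := base (n - k) R hR y hy
    have hc0 : (0 : ℝ) ≤ (n.descFactorial k : ℝ) := Nat.cast_nonneg _
    obtain ⟨e1, e2⟩ := ext_abs he n k hy
    rw [e1, e2, h, eval_mul, eval_mul, eval_C, eval_C, ← even_abs he (_ * R.eval y),
      ← even_abs he (_ * R.eval (-y)), abs_mul, abs_mul, abs_of_nonneg hc0]
    refine (two_le he hc (U := (n.descFactorial k : ℝ) * (1 + y) ^ (n - k))
      (V := (n.descFactorial k : ℝ) * |1 - y| ^ (n - k)) (by positivity) (by positivity)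
      (mul_le_mul_of_nonneg_left b1 hc0) (mul_le_mul_of_nonneg_left b2 hc0) ?_).trans
      (le_of_eq (add_comm _ _))
    rw [← mul_add, ← mul_add]
    exact mul_le_mul_of_nonneg_left b3 hc0
  · have h1 : derivative^[k] P = 0 := iterate_derivative_eq_zero (by rw [hP.2.1]; exact hk)
    have h2 : derivative^[k] ((X - C (1 : ℝ)) ^ n) = 0 := iterate_derivative_eq_zero (by
      rw [natDegree_pow, natDegree_X_sub_C]; omega)
    rw [h1, h2]

theorem pair_le (he : ∀ u, Φ (-u) = Φ u) (hc : ConvexOn ℝ Set.univ Φ) {n : ℕ} {P : ℝ[X]}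
    (hP : P ∈ DiscPoly n) (k : ℕ) (y : ℝ) :
    Φ ((derivative^[k] P).eval y) + Φ ((derivative^[k] P).eval (-y)) ≤
      Φ ((derivative^[k] ((X - C (1 : ℝ)) ^ n)).eval y) +
        Φ ((derivative^[k] ((X - C (1 : ℝ)) ^ n)).eval (-y)) := by
  rcases le_total 0 y with hy | hy
  · exact pair_nonneg he hc hP k hy
  · have := pair_nonneg he hc hP k (y := -y) (by linarith)
    rw [neg_neg] at this
    linarith

theorem cont_Phi (hc : ConvexOn ℝ Set.univ Φ) : Continuous Φ := by
  rw [← continuousOn_univ]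
  exact hc.continuousOn isOpen_univ

theorem integrable_aux (hc : ConvexOn ℝ Set.univ Φ) (F : ℝ[X]) {T : ℝ} {w : ℝ → ℝ}
    (hw : IntervalIntegrable w volume (-T) T) :
    IntervalIntegrable (fun x => Φ (F.eval x) * w x) volume (-T) T := by
  apply IntervalIntegrable.continuousOn_mul hw
  exact ((cont_Phi hc).comp F.continuous).continuousOn

theorem fold_aux (hc : ConvexOn ℝ Set.univ Φ) (F : ℝ[X]) {T : ℝ} (hT : 0 ≤ T) {w : ℝ → ℝ}
    (hw : IntervalIntegrable w volume (-T) T) (hwe : ∀ x, w (-x) = w x) :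
    ∫ x in (-T)..T, Φ (F.eval x) * w x =
      ∫ x in (0 : ℝ)..T, (Φ (F.eval x) + Φ (F.eval (-x))) * w x := by
  rw [integral_fold T _ (integrable_aux hc F hw) hT]
  congr 1
  ext x
  rw [hwe]
  ring

theorem half_integrable {T : ℝ} (hT : 0 ≤ T) {w : ℝ → ℝ}
    (hw : IntervalIntegrable w volume (-T) T) : IntervalIntegrable w volume 0 T :=
  hw.mono_set (by
    rw [Set.uIcc_of_le (by linarith), Set.uIcc_of_le (by linarith)]
    exact Set.Icc_subset_Icc (by linarith) le_rfl)

theorem cont_pair (hc : ConvexOn ℝ Set.univ Φ) (F : ℝ[X]) :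
    Continuous (fun x => Φ (F.eval x) + Φ (F.eval (-x))) :=
  ((cont_Phi hc).comp F.continuous).add ((cont_Phi hc).comp (F.continuous.comp continuous_neg))

theorem int_le (he : ∀ u, Φ (-u) = Φ u) (hc : ConvexOn ℝ Set.univ Φ) {n : ℕ} {P : ℝ[X]}
    (hP : P ∈ DiscPoly n) (k : ℕ) {T : ℝ} (hT : 0 ≤ T) {w : ℝ → ℝ}
    (hw : IntervalIntegrable w volume (-T) T) (hwe : ∀ x, w (-x) = w x)
    (hw0 : ∀ x ∈ Set.Ioo (-T) T, 0 ≤ w x) :
    ∫ x in (-T)..T, Φ ((derivative^[k] P).eval x) * w x ≤
      ∫ x in (-T)..T, Φ ((derivative^[k] ((X - C (1 : ℝ)) ^ n)).eval x) * w x := by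
  rw [fold_aux hc _ hT hw hwe, fold_aux hc _ hT hw hwe]
  have hw' := half_integrable hT hw
  apply intervalIntegral.integral_mono_on_of_le_Ioo hT
  · exact hw'.continuousOn_mul (cont_pair hc _).continuousOn
  · exact hw'.continuousOn_mul (cont_pair hc _).continuousOn
  · intro x hx
    exact mul_le_mul_of_nonneg_right (pair_le he hc hP k x)
      (hw0 x ⟨by linarith [hx.1, hx.2], hx.2⟩)

/-- equality of the integrals forces equality of the pairs -/
theorem pair_eq_of_int (he : ∀ u, Φ (-u) = Φ u) (hc : ConvexOn ℝ Set.univ Φ) {n : ℕ} {P : ℝ[X]}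
    (hP : P ∈ DiscPoly n) (k : ℕ) {T : ℝ} (hT : 0 < T) {w : ℝ → ℝ}
    (hw : IntervalIntegrable w volume (-T) T) (hwe : ∀ x, w (-x) = w x)
    (hw0 : ∀ x ∈ Set.Ioo (-T) T, 0 < w x)
    (heq : ∫ x in (-T)..T, Φ ((derivative^[k] P).eval x) * w x =
      ∫ x in (-T)..T, Φ ((derivative^[k] ((X - C (1 : ℝ)) ^ n)).eval x) * w x) :
    ∀ y ∈ Set.Ioo 0 T, Φ ((derivative^[k] P).eval y) + Φ ((derivative^[k] P).eval (-y)) =
      Φ ((derivative^[k] ((X - C (1 : ℝ)) ^ n)).eval y) +
        Φ ((derivative^[k] ((X - C (1 : ℝ)) ^ n)).eval (-y)) := by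
  set A : ℝ → ℝ := fun y => Φ ((derivative^[k] P).eval y) + Φ ((derivative^[k] P).eval (-y)) with hA
  set B : ℝ → ℝ := fun y => Φ ((derivative^[k] ((X - C (1 : ℝ)) ^ n)).eval y) +
        Φ ((derivative^[k] ((X - C (1 : ℝ)) ^ n)).eval (-y)) with hB
  have hAc : Continuous A := cont_pair hc _
  have hBc : Continuous B := cont_pair hc _
  rw [fold_aux hc _ hT.le hw hwe, fold_aux hc _ hT.le hw hwe] at heq
  have hw' := half_integrable hT.le hw
  have i1 : IntervalIntegrable (fun x => A x * w x) volume 0 T := hw'.continuousOn_mul hAc.continuousOn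
  have i2 : IntervalIntegrable (fun x => B x * w x) volume 0 T := hw'.continuousOn_mul hBc.continuousOn
  have h0 : ∫ x in (0 : ℝ)..T, (B x * w x - A x * w x) = 0 := by
    rw [intervalIntegral.integral_sub i2 i1, sub_eq_zero]
    exact heq.symm
  have hnn : ∀ x ∈ Set.Ioo 0 T, 0 ≤ B x * w x - A x * w x := by
    intro x hx
    have h1 := pair_le he hc hP k x
    have h2 := hw0 x ⟨by linarith [hx.1, hx.2], hx.2⟩
    have h3 : A x ≤ B x := h1
    have := mul_le_mul_of_nonneg_right h3 h2.le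
    linarith
  rw [intervalIntegral.integral_of_le hT.le, integral_Ioc_eq_integral_Ioo] at h0
  have hae : (fun x => B x * w x - A x * w x) =ᵐ[volume.restrict (Set.Ioo 0 T)] 0 := by
    rw [← setIntegral_eq_zero_iff_of_nonneg_ae ?_ ?_]
    · exact h0
    · rw [Filter.EventuallyLE, ae_restrict_iff' measurableSet_Ioo]
      exact Filter.Eventually.of_forall hnn
    · have := (i2.sub i1)
      rw [intervalIntegrable_iff_integrableOn_Ioo_of_le hT.le] at this
      exact this
  have hae2 : A =ᵐ[volume.restrict (Set.Ioo 0 T)] B := by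
    rw [Filter.EventuallyEq, ae_restrict_iff' measurableSet_Ioo] at hae ⊢
    filter_upwards [hae] with x hx hxI
    have h1 := hx hxI
    have h2 := hw0 x ⟨by linarith [hxI.1, hxI.2], hxI.2⟩
    have h3 : (B x - A x) * w x = 0 := by
      have : B x * w x - A x * w x = 0 := h1
      linarith
    rcases mul_eq_zero.1 h3 with h4 | h4
    · linarith
    · exact absurd h4 h2.ne'
  intro y hy
  exact Measure.eqOn_open_of_ae_eq hae2 isOpen_Ioo hAc.continuousOn hBc.continuousOn hy

/-- the sum of the roots -/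
theorem sum_re (e : ℝ) (hee : |e| = 1) (s : Multiset ℂ) :
    (∀ z ∈ s, ‖z‖ ≤ 1) → e * s.sum.re ≤ s.card ∧
      (e * s.sum.re = s.card → ∀ z ∈ s, z = (e : ℂ)) := by
  have he2 : e * e = 1 := by rw [← abs_mul_abs_self, hee, one_mul]
  induction s using Multiset.induction with
  | empty => intro _; simp
  | cons a s ih =>
    intro h
    obtain ⟨h1, h2⟩ := ih (fun z hz => h z (Multiset.mem_cons_of_mem hz))
    have ha := h a (Multiset.mem_cons_self a s)
    have ha1 : e * a.re ≤ 1 := by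
      have g1 : |e * a.re| ≤ 1 := by
        rw [abs_mul, hee, one_mul]
        exact (Complex.abs_re_le_norm a).trans ha
      exact (le_abs_self _).trans g1
    simp only [Multiset.sum_cons, Complex.add_re, Multiset.card_cons, Nat.cast_add, Nat.cast_one]
    constructor
    · rw [mul_add]; linarith
    · intro heq z hz
      rw [mul_add] at heq
      have e1 : e * a.re = 1 := by linarith
      have e2 : e * s.sum.re = s.card := by linarith
      rcases Multiset.mem_cons.1 hz with rfl | hz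
      · have hre : z.re = e := by
          have : e * (e * z.re) = e * 1 := by rw [e1]
          rw [← mul_assoc, he2] at this
          linarith
        have hn : z.re ^ 2 + z.im ^ 2 ≤ 1 := by
          have : ‖z‖ ^ 2 = z.re ^ 2 + z.im ^ 2 := by
            rw [← Complex.normSq_eq_norm_sq, Complex.normSq_apply]; ring
          rw [← this]
          exact pow_le_one₀ (norm_nonneg _) ha
        have him : z.im = 0 := by
          rw [hre] at hn
          have : z.im ^ 2 ≤ 0 := by nlinarith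
          exact pow_eq_zero_iff (two_ne_zero) |>.1 (le_antisymm this (sq_nonneg _))
        exact Complex.ext (by simp [hre]) (by simp [him])
      · exact h2 e2 z hz

/-- a member of the class is determined by one of its derivatives if this is extremal -/
theorem determined {n k : ℕ} (hk : k < n) {P : ℝ[X]} (hP : P ∈ DiscPoly n) (e : ℝ)
    (hee : |e| = 1)
    (h : derivative^[k] P = C (n.descFactorial k : ℝ) * (X - C e) ^ (n - k)) :
    P = (X - C e) ^ n := by
  obtain ⟨m, rfl⟩ : ∃ m, n = m + 1 := ⟨n - 1, by omega⟩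
  have hkm : k ≤ m := by omega
  have hc1 : (derivative^[k] P).coeff (m - k) = (m.descFactorial k : ℝ) * P.coeff m := by
    rw [coeff_iterate_derivative, nsmul_eq_mul, Nat.sub_add_cancel hkm]
  have hc2 : (derivative^[k] P).coeff (m - k) =
      ((m + 1).descFactorial k : ℝ) * (-(e * ((m - k : ℕ) + 1 : ℝ))) := by
    rw [h, coeff_C_mul]
    congr 1
    have hmk : m + 1 - k = (m - k) + 1 := by omega
    rw [hmk]
    have hnx : ((X - C e) ^ ((m - k) + 1)).natDegree = (m - k) + 1 := by
      rw [natDegree_pow, natDegree_X_sub_C, mul_one]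
    have h1 : ((X - C e) ^ ((m - k) + 1)).nextCoeff = ((X - C e) ^ ((m - k) + 1)).coeff (m - k) := by
      rw [nextCoeff_of_natDegree_pos (by rw [hnx]; omega), hnx]
      rfl
    rw [← h1, Monic.nextCoeff_pow (monic_X_sub_C e), nextCoeff_X_sub_C]
    simp
    ring
  have hd : ((m + 1).descFactorial k : ℝ) * ((m - k : ℕ) + 1 : ℝ) =
      ((m : ℝ) + 1) * (m.descFactorial k : ℝ) := by
    have h1 : (m + 1).descFactorial (k + 1) = (m + 1 - k) * (m + 1).descFactorial k :=
      Nat.descFactorial_succ _ _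
    have h2 : (m + 1).descFactorial (k + 1) = (m + 1) * m.descFactorial k :=
      Nat.succ_descFactorial_succ _ _
    have h3 : (m + 1 - k) * (m + 1).descFactorial k = (m + 1) * m.descFactorial k := h1.symm.trans h2
    have h4 : m + 1 - k = (m - k) + 1 := by omega
    rw [h4] at h3
    have h5 : (((m - k) + 1 : ℕ) : ℝ) * ((m + 1).descFactorial k : ℝ) =
        ((m + 1 : ℕ) : ℝ) * (m.descFactorial k : ℝ) := by exact_mod_cast h3
    push_cast at h5 ⊢
    linarith
  have hpos : (0 : ℝ) < (m.descFactorial k : ℝ) := by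
    rw [Nat.cast_pos, Nat.pos_iff_ne_zero, Ne, Nat.descFactorial_eq_zero_iff_lt]
    omega
  have hcoef : P.coeff m = -(e * ((m : ℝ) + 1)) := by
    have h1 : (m.descFactorial k : ℝ) * P.coeff m =
        (m.descFactorial k : ℝ) * (-(e * ((m : ℝ) + 1))) := by
      rw [← hc1, hc2]
      linear_combination (-e) * hd
    exact mul_left_cancel₀ hpos.ne' h1
  -- pass to complex roots
  have hmon : (P.map (algebraMap ℝ ℂ)).Monic := hP.1.map _
  have hsp : (P.map (algebraMap ℝ ℂ)).Splits := IsAlgClosed.splits _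
  set s := (P.map (algebraMap ℝ ℂ)).roots with hs
  have hcard : s.card = m + 1 := by
    rw [hs, ← hsp.natDegree_eq_card_roots, natDegree_map, hP.2.1]
  have hsum : s.sum = ((e * ((m : ℝ) + 1) : ℝ) : ℂ) := by
    have h1 := hsp.nextCoeff_eq_neg_sum_roots_of_monic hmon
    rw [nextCoeff_map_eq, nextCoeff_of_natDegree_pos (by rw [hP.2.1]; omega), hP.2.1] at h1
    rw [show m + 1 - 1 = m from rfl, hcoef] at h1
    rw [Complex.coe_algebraMap, Complex.ofReal_neg, neg_inj] at h1
    exact h1.symm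
  have hroots : ∀ z ∈ s, ‖z‖ ≤ 1 := by
    intro z hz
    apply hP.2.2 z
    rw [hs, mem_roots hmon.ne_zero, IsRoot, eval_map_algebraMap] at hz
    exact hz
  have he2 : e * e = 1 := by rw [← abs_mul_abs_self, hee, one_mul]
  have hall : ∀ z ∈ s, z = (e : ℂ) := by
    apply (sum_re e hee s hroots).2
    rw [hsum, Complex.ofReal_re, hcard, ← mul_assoc, he2]
    push_cast
    ring
  have hrep : s = Multiset.replicate (m + 1) (e : ℂ) := Multiset.eq_replicate.2 ⟨hcard, hall⟩
  have hprod := hsp.eq_prod_roots_of_monic hmon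
  rw [← hs, hrep, Multiset.map_replicate, Multiset.prod_replicate] at hprod
  apply map_injective (algebraMap ℝ ℂ) (algebraMap ℝ ℂ).injective
  rw [hprod, Polynomial.map_pow, Polynomial.map_sub, map_X, map_C]
  rfl

theorem pair_ext (he : ∀ u, Φ (-u) = Φ u) (n k : ℕ) (y : ℝ) :
    Φ ((derivative^[k] ((X + C (1 : ℝ)) ^ n)).eval y) =
      Φ ((derivative^[k] ((X - C (1 : ℝ)) ^ n)).eval (-y)) := by
  rw [ext_eval, ext_eval', ← even_abs he, ← even_abs he (_ * (-y - 1) ^ (n - k)), abs_mul, abs_mul,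
    abs_pow, abs_pow]
  congr 3
  rw [show -y - 1 = -(y + 1) by ring, abs_neg]

theorem int_eq (he : ∀ u, Φ (-u) = Φ u) (hc : StrictConvexOn ℝ Set.univ Φ) {n : ℕ} {P : ℝ[X]}
    (hP : P ∈ DiscPoly n) {k : ℕ} (hk : k < n) {T : ℝ} (hT : 0 < T) {w : ℝ → ℝ}
    (hw : IntervalIntegrable w volume (-T) T) (hwe : ∀ x, w (-x) = w x)
    (hw0 : ∀ x ∈ Set.Ioo (-T) T, 0 < w x) :
    (∫ x in (-T)..T, Φ ((derivative^[k] P).eval x) * w x =
      ∫ x in (-T)..T, Φ ((derivative^[k] ((X - C (1 : ℝ)) ^ n)).eval x) * w x) ↔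
      (P = (X - C 1) ^ n ∨ P = (X + C 1) ^ n) := by
  constructor
  · intro heq
    have hpair := pair_eq_of_int he hc.convexOn hP k hT hw hwe hw0 heq
    obtain ⟨R, hR, h⟩ := iter_disc hP k hk.le
    have hc0 : (0 : ℝ) < (n.descFactorial k : ℝ) := by
      rw [Nat.cast_pos, Nat.pos_iff_ne_zero, Ne, Nat.descFactorial_eq_zero_iff_lt]
      omega
    -- the values
    have hval : ∀ y ∈ Set.Ioo 0 T, |R.eval y| = (1 + y) ^ (n - k) ∨
        |R.eval y| = |1 - y| ^ (n - k) := by
      intro y hy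
      have h1 := hpair y hy
      obtain ⟨b1, b2, b3⟩ := base (n - k) R hR y hy.1.le
      obtain ⟨e1, e2⟩ := ext_abs he n k hy.1.le
      rw [e1, e2, h, eval_mul, eval_mul, eval_C, eval_C, ← even_abs he (_ * R.eval y),
        ← even_abs he (_ * R.eval (-y)), abs_mul, abs_mul, abs_of_nonneg hc0.le] at h1
      have := two_eq he hc (U := (n.descFactorial k : ℝ) * (1 + y) ^ (n - k))
        (V := (n.descFactorial k : ℝ) * |1 - y| ^ (n - k)) (by positivity) (by positivity)
        (mul_le_mul_of_nonneg_left b1 hc0.le) (mul_le_mul_of_nonneg_left b2 hc0.le)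
        (by rw [← mul_add, ← mul_add]; exact mul_le_mul_of_nonneg_left b3 hc0.le)
        (h1.trans (add_comm _ _))
      rcases this with h2 | h2
      · left; exact mul_left_cancel₀ hc0.ne' h2
      · right; exact mul_left_cancel₀ hc0.ne' h2
    set m := n - k with hm
    -- polynomial identity
    have hzero : (R ^ 2 - ((X + C 1) ^ m) ^ 2) * (R ^ 2 - ((X - C 1) ^ m) ^ 2) = 0 := by
      apply eq_zero_of_infinite_isRoot
      apply (Set.Ioo_infinite hT).mono
      intro y hy
      change IsRoot _ y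
      rw [IsRoot, eval_mul, mul_eq_zero]
      rcases hval y hy with h2 | h2
      · left
        rw [eval_sub, eval_pow, ← sq_abs, h2]
        simp [add_comm]
      · right
        rw [eval_sub, eval_pow, ← sq_abs, h2]
        simp only [eval_pow, eval_sub, eval_X, eval_C]
        rw [← sq_abs ((y - 1) ^ m), abs_pow, abs_sub_comm, sub_self]
    have hmonic : ∀ Q : ℝ[X], Q.Monic → R ^ 2 = Q ^ 2 → R = Q := by
      intro Q hQ h2
      rcases sq_eq_sq_iff_eq_or_eq_neg.1 h2 with h3 | h3
      · exact h3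
      · exfalso
        have h4 := congrArg leadingCoeff h3
        rw [leadingCoeff_neg, hQ.leadingCoeff, hR.1.leadingCoeff] at h4
        norm_num at h4
    rcases mul_eq_zero.1 hzero with h2 | h2
    · right
      have h3 := hmonic _ ((monic_X_add_C (1 : ℝ)).pow m) (sub_eq_zero.1 h2)
      have h4 : (X + C (1 : ℝ)) = X - C (-1) := by rw [C_neg]; ring
      rw [h3, h4] at h
      rw [h4]
      exact determined hk hP (-1) (by norm_num) h
    · left
      have h3 := hmonic _ ((monic_X_sub_C (1 : ℝ)).pow m) (sub_eq_zero.1 h2)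
      rw [h3] at h
      exact determined hk hP 1 (by norm_num) h
  · rintro (rfl | rfl)
    · rfl
    · rw [fold_aux hc.convexOn _ hT.le hw hwe, fold_aux hc.convexOn _ hT.le hw hwe]
      congr 1
      ext x
      rw [pair_ext he, pair_ext he, neg_neg, add_comm]

end Pool.Agent.Y247.CV
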