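import Mathlib

/-!
# Weak majorization of the values at `y` and `-y` of a real polynomial with zeros in the disc
-/

set_option autoImplicit false

open Polynomial MeasureTheory

namespace Pool.Agent.Y247.CV

/-- real monic polynomials of degree `n` with all complex zeros in the closed unit disc -/
def DiscPoly (n : ℕ) : Set ℝ[X] :=
  {P | P.Monic ∧ P.natDegree = n ∧ ∀ z : ℂ, aeval z P = 0 → ‖z‖ ≤ 1}

theorem maj_mul {a b u v A B U V : ℝ} (ha : 0 ≤ a) (hb : 0 ≤ b) (hA : 0 ≤ A) (hB : 0 ≤ B)
    (hau : a ≤ u) (hbu : b ≤ u) (hab : a + b ≤ u + v) (hAU : A ≤ U)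
    (hBU : B ≤ U) (hAB : A + B ≤ U + V) (hV : 0 ≤ V) (hUV : V ≤ U) :
    a * A ≤ u * U ∧ b * B ≤ u * U ∧ a * A + b * B ≤ u * U + v * V := by
  have hu : 0 ≤ u := ha.trans hau
  refine ⟨mul_le_mul hau hAU hA hu, mul_le_mul hbu hBU hB hu, ?_⟩
  rcases le_total b a with h | h
  · have h1 : b * (A + B) ≤ b * (U + V) := mul_le_mul_of_nonneg_left hAB hb
    have h2 : (a - b) * A ≤ (a - b) * U := mul_le_mul_of_nonneg_left hAU (sub_nonneg.2 h)
    have h3 : V * (a + b) ≤ V * (u + v) := mul_le_mul_of_nonneg_left hab hV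
    have h4 : (U - V) * a ≤ (U - V) * u := mul_le_mul_of_nonneg_left hau (sub_nonneg.2 hUV)
    nlinarith
  · have h1 : a * (A + B) ≤ a * (U + V) := mul_le_mul_of_nonneg_left hAB ha
    have h2 : (b - a) * B ≤ (b - a) * U := mul_le_mul_of_nonneg_left hBU (sub_nonneg.2 h)
    have h3 : V * (a + b) ≤ V * (u + v) := mul_le_mul_of_nonneg_left hab hV
    have h4 : (U - V) * b ≤ (U - V) * u := mul_le_mul_of_nonneg_left hbu (sub_nonneg.2 hUV)
    nlinarith

theorem abs_le_one_add {y : ℝ} (hy : 0 ≤ y) (m : ℕ) : |1 - y| ^ m ≤ (1 + y) ^ m := by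
  apply pow_le_pow_left₀ (abs_nonneg _)
  rw [abs_le]
  constructor <;> linarith

/-- factor of a member of the class -/
theorem disc_factor {n d : ℕ} {P q Q : ℝ[X]} (hP : P ∈ DiscPoly n) (hq : q.Monic)
    (hd : q.natDegree = d) (h : P = q * Q) : d ≤ n ∧ Q ∈ DiscPoly (n - d) := by
  obtain ⟨h1, h2, h3⟩ := hP
  have hQ : Q.Monic := hq.of_mul_monic_left (h ▸ h1)
  have hdeg : n = d + Q.natDegree := by
    rw [← h2, h, hq.natDegree_mul hQ, hd]
  refine ⟨by omega, hQ, by omega, ?_⟩
  intro z hz
  apply h3 z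
  rw [h, map_mul, hz, mul_zero]

theorem base (n : ℕ) : ∀ P ∈ DiscPoly n, ∀ y : ℝ, 0 ≤ y →
    |P.eval y| ≤ (1 + y) ^ n ∧ |P.eval (-y)| ≤ (1 + y) ^ n ∧
      |P.eval y| + |P.eval (-y)| ≤ (1 + y) ^ n + |1 - y| ^ n := by
  induction n using Nat.strong_induction_on with
  | _ n ih =>
    intro P hP y hy
    rcases Nat.eq_zero_or_pos n with hn | hn
    · subst hn
      have hP1 : P = 1 := hP.1.natDegree_eq_zero.1 hP.2.1
      subst hP1
      simp
    · have hdeg : P.degree ≠ 0 := by
        intro h0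
        have h5 : P.natDegree = 0 := natDegree_eq_zero_iff_degree_le_zero.2 h0.le
        have h2 := hP.2.1
        omega
      obtain ⟨z, hz⟩ := IsAlgClosed.exists_aeval_eq_zero ℂ P hdeg
      have hz1 : ‖z‖ ≤ 1 := hP.2.2 z hz
      have hre : |z.re| ≤ 1 := (Complex.abs_re_le_norm z).trans hz1
      rw [abs_le] at hre
      by_cases him : z.im = 0
      · -- real root
        have hzr : z = ((z.re : ℝ) : ℂ) := Complex.ext rfl (by simp [him])
        have hroot : P.eval z.re = 0 := by
          rw [hzr, ← Complex.coe_algebraMap, aeval_algebraMap_apply] at hz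
          have h5 : algebraMap ℝ ℂ (aeval z.re P) = 0 := hz
          rw [Complex.coe_algebraMap, Complex.ofReal_eq_zero] at h5
          simpa using h5
        obtain ⟨Q, hQ⟩ := dvd_iff_isRoot.2 hroot
        obtain ⟨hd, hQD⟩ := disc_factor hP (monic_X_sub_C _) (natDegree_X_sub_C _) hQ
        obtain ⟨i1, i2, i3⟩ := ih (n - 1) (by omega) Q hQD y hy
        have e1 : |P.eval y| = |y - z.re| * |Q.eval y| := by
          rw [hQ, eval_mul, abs_mul]; simp
        have e2 : |P.eval (-y)| = |-y - z.re| * |Q.eval (-y)| := by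
          rw [hQ, eval_mul, abs_mul]; simp
        have f1 : |y - z.re| ≤ 1 + y := by rw [abs_le]; constructor <;> linarith
        have f2 : |-y - z.re| ≤ 1 + y := by rw [abs_le]; constructor <;> linarith
        have f3 : |y - z.re| + |-y - z.re| ≤ (1 + y) + |1 - y| := by
          have g1 := le_abs_self (1 - y)
          have g2 := neg_abs_le (1 - y)
          rcases abs_cases (y - z.re) with ⟨h, _⟩ | ⟨h, _⟩ <;>
            rcases abs_cases (-y - z.re) with ⟨h', _⟩ | ⟨h', _⟩ <;> rw [h, h'] <;> linarith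
        have key := maj_mul (abs_nonneg (y - z.re)) (abs_nonneg (-y - z.re))
          (abs_nonneg (Q.eval y)) (abs_nonneg (Q.eval (-y))) f1 f2 f3 i1 i2 i3
          (by positivity) (abs_le_one_add hy _)
        have p1 : (1 + y) * (1 + y) ^ (n - 1) = (1 + y) ^ n := by
          rw [← pow_succ']; congr 1; omega
        have p2 : |1 - y| * |1 - y| ^ (n - 1) = |1 - y| ^ n := by
          rw [← pow_succ']; congr 1; omega
        rw [e1, e2, ← p1, ← p2]
        exact key
      · obtain ⟨Q, hQ⟩ := P.quadratic_dvd_of_aeval_eq_zero_im_ne_zero hz him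
        set q : ℝ[X] := X ^ 2 - C (2 * z.re) * X + C (‖z‖ ^ 2) with hq
        have hq' : q = X ^ 2 + (C (-(2 * z.re)) * X + C (‖z‖ ^ 2)) := by
          rw [hq, C_neg]; ring
        have hsmall : (C (-(2 * z.re)) * X + C (‖z‖ ^ 2) : ℝ[X]).degree < (2 : ℕ) :=
          lt_of_le_of_lt degree_linear_le (by norm_num)
        have hqm : q.Monic := by rw [hq']; exact monic_X_pow_add hsmall
        have hqd : q.natDegree = 2 := by
          rw [hq]
          compute_degree!
        obtain ⟨hd, hQD⟩ := disc_factor hP hqm hqd hQ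
        obtain ⟨i1, i2, i3⟩ := ih (n - 2) (by omega) Q hQD y hy
        have hn2 : ‖z‖ ^ 2 = z.re ^ 2 + z.im ^ 2 := by
          rw [← Complex.normSq_eq_norm_sq, Complex.normSq_apply]; ring
        have hev : ∀ t : ℝ, q.eval t = (t - z.re) ^ 2 + z.im ^ 2 := by
          intro t
          rw [hq]
          simp only [eval_add, eval_sub, eval_pow, eval_X, eval_mul, eval_C]
          rw [hn2]; ring
        have hle : z.re ^ 2 + z.im ^ 2 ≤ 1 := by
          rw [← hn2]
          exact pow_le_one₀ (norm_nonneg _) hz1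
        have e1 : |P.eval y| = q.eval y * |Q.eval y| := by
          rw [hQ, eval_mul, abs_mul, abs_of_nonneg (a := q.eval y)]
          rw [hev]; positivity
        have e2 : |P.eval (-y)| = q.eval (-y) * |Q.eval (-y)| := by
          rw [hQ, eval_mul, abs_mul, abs_of_nonneg (a := q.eval (-y))]
          rw [hev]; positivity
        have f1 : q.eval y ≤ (1 + y) ^ 2 := by rw [hev]; nlinarith
        have f2 : q.eval (-y) ≤ (1 + y) ^ 2 := by rw [hev]; nlinarith
        have f3 : q.eval y + q.eval (-y) ≤ (1 + y) ^ 2 + |1 - y| ^ 2 := by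
          rw [hev, hev, sq_abs]; nlinarith
        have key := maj_mul (a := q.eval y) (b := q.eval (-y)) (by rw [hev]; positivity)
          (by rw [hev]; positivity)
          (abs_nonneg (Q.eval y)) (abs_nonneg (Q.eval (-y))) f1 f2 f3 i1 i2 i3
          (by positivity) (abs_le_one_add hy _)
        have p1 : (1 + y) ^ 2 * (1 + y) ^ (n - 2) = (1 + y) ^ n := by
          rw [← pow_add]; congr 1; omega
        have p2 : |1 - y| ^ 2 * |1 - y| ^ (n - 2) = |1 - y| ^ n := by
          rw [← pow_add]; congr 1; omega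
        rw [e1, e2, ← p1, ← p2]
        exact key

theorem deriv_disc {n : ℕ} {P : ℝ[X]} (hP : P ∈ DiscPoly (n + 1)) :
    ∃ R ∈ DiscPoly n, derivative P = C ((n : ℝ) + 1) * R := by
  obtain ⟨h1, h2, h3⟩ := hP
  have hn : ((n : ℝ) + 1) ≠ 0 := by positivity
  have hcoef : (derivative P).coeff n = (n : ℝ) + 1 := by
    have h5 : P.coeff (n + 1) = 1 := by rw [← h2]; exact h1.coeff_natDegree
    rw [coeff_derivative, h5, one_mul]
  have hdegP : (derivative P).natDegree = n := by
    rw [natDegree_derivative, h2]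
    omega
  refine ⟨C ((n : ℝ) + 1)⁻¹ * derivative P, ⟨?_, ?_, ?_⟩, ?_⟩
  · rw [Monic, leadingCoeff_mul, leadingCoeff_C, leadingCoeff, hdegP, hcoef, inv_mul_cancel₀ hn]
  · rw [natDegree_C_mul (inv_ne_zero hn), hdegP]
  · intro z hz
    rw [map_mul, aeval_C, mul_eq_zero] at hz
    have hz' : aeval z (derivative P) = 0 := by
      rcases hz with hz | hz
      · exfalso
        rw [Complex.coe_algebraMap, Complex.ofReal_eq_zero] at hz
        exact inv_ne_zero hn hz
      · exact hz
    have hdeg : 0 < (P.map (algebraMap ℝ ℂ)).degree := by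
      rw [degree_map, ← natDegree_pos_iff_degree_pos, h2]
      omega
    have hne : derivative P ≠ 0 := by
      intro h0
      rw [h0, coeff_zero] at hcoef
      exact hn hcoef.symm
    have hmem : z ∈ (derivative (P.map (algebraMap ℝ ℂ))).rootSet ℂ := by
      rw [mem_rootSet, derivative_map]
      refine ⟨?_, ?_⟩
      · rw [Polynomial.map_ne_zero_iff (algebraMap ℝ ℂ).injective]
        exact hne
      · rw [aeval_map_algebraMap]
        exact hz'
    have hsub := rootSet_derivative_subset_convexHull_rootSet hdeg hmem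
    have hball : (P.map (algebraMap ℝ ℂ)).rootSet ℂ ⊆ Metric.closedBall (0 : ℂ) 1 := by
      intro w hw
      rw [mem_rootSet] at hw
      rw [mem_closedBall_zero_iff]
      apply h3 w
      have := hw.2
      rwa [aeval_map_algebraMap] at this
    have := convexHull_min hball (convex_closedBall (0 : ℂ) 1) hsub
    rwa [mem_closedBall_zero_iff] at this
  · rw [← mul_assoc, ← C_mul, mul_inv_cancel₀ hn, C_1, one_mul]

theorem iter_disc {n : ℕ} {P : ℝ[X]} (hP : P ∈ DiscPoly n) (k : ℕ) (hk : k ≤ n) :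
    ∃ R ∈ DiscPoly (n - k), derivative^[k] P = C (n.descFactorial k : ℝ) * R := by
  induction k with
  | zero => exact ⟨P, hP, by simp⟩
  | succ k ih =>
    obtain ⟨R, hR, h⟩ := ih (by omega)
    have hnk : n - k = (n - (k + 1)) + 1 := by omega
    rw [hnk] at hR
    obtain ⟨R', hR', h'⟩ := deriv_disc hR
    refine ⟨R', hR', ?_⟩
    rw [Function.iterate_succ_apply', h, derivative_C_mul, h', ← mul_assoc, ← C_mul,
      Nat.descFactorial_succ]
    congr 2
    have : ((n - k : ℕ) : ℝ) = ((n - (k + 1) : ℕ) : ℝ) + 1 := by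
      rw [hnk]; push_cast; ring
    push_cast [this]
    ring

end Pool.Agent.Y247.CV
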